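import Mathlib

/-! The maximal-shattering sequence need not be monotone. -/

namespace Pool.Agent.Results.MP_522a36_co.NotMonotone

open Set

variable {X : Type}

def Shatters (S : Set (Set X)) (Y : Finset X) : Prop := ∀ Z ⊆ (Y : Set X), ∃ U ∈ S, U ∩ Y = Z

/-- The sizes of finite shattered sets; the VC-dimension is finite when this set is bounded. -/
def sizes (S : Set (Set X)) : Set ℕ := {n | ∃ Y : Finset X, Y.card = n ∧ Shatters S Y}

/-- The `k`-fold union family. -/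
def unions (S : Set (Set X)) (k : ℕ) : Set (Set X) :=
  {U | ∃ f : Fin k → Set X, (∀ i, f i ∈ S) ∧ U = ⋃ i, f i}

def trace (S : Set (Set X)) (Y : Finset X) : Set (Set X) := (· ∩ Y) '' S

def Iso (S : Set (Set X)) (Y Y' : Finset X) : Prop :=
  ∃ f : X → X, BijOn f Y Y' ∧ (f '' ·) '' trace S Y = trace S Y'

/-- The sets of size `d_k` shattered by the `k`-fold union family. -/
def top (S : Set (Set X)) (k : ℕ) : Set (Finset X) :=
  {Y | Y.card = sSup (sizes (unions S k)) ∧ Shatters (unions S k) Y}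

/-- The number `s_k` of shatter-isomorphism classes in `top S k`. -/
noncomputable def s (S : Set (Set X)) (k : ℕ) : ℕ :=
  ((fun Y => {Y' ∈ top S k | Iso S Y Y'}) '' top S k).ncard

def L : Finset (Finset ℕ) := {{0}, {1}, {0, 1}, {0, 2}, {3}}

def S0 : Set (Set ℕ) := (↑) '' (L : Set (Finset ℕ))

def sh (k : ℕ) (Y : Finset ℕ) : Prop :=
  ∀ Z ∈ Y.powerset, ∃ f ∈ Fintype.piFinset fun _ : Fin k => L, Finset.univ.biUnion f ∩ Y = Z

instance (k : ℕ) : DecidablePred (sh k) := fun _ => by unfold sh; infer_instance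

lemma sh_iff (k : ℕ) (Y : Finset ℕ) : Shatters (unions S0 k) Y ↔ sh k Y := by
  constructor
  · intro h Z hZ
    obtain ⟨_, ⟨f, hf, rfl⟩, e⟩ := h Z (by simpa using hZ)
    choose g h1 h2 using hf
    refine ⟨g, Fintype.mem_piFinset.2 h1, Finset.coe_injective ?_⟩
    simp [← e, ← h2]
  · intro h Z hZ
    lift Z to Finset ℕ using Y.finite_toSet.subset hZ
    obtain ⟨f, hf, rfl⟩ := h Z (by simpa using hZ)
    exact ⟨_, ⟨fun i => f i, fun i => ⟨_, Fintype.mem_piFinset.1 hf i, rfl⟩, rfl⟩, by simp⟩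

lemma sub {k : ℕ} {Y : Finset ℕ} (h : sh k Y) : Y ∈ (Finset.range 4).powerset := by
  obtain ⟨f, hf, e⟩ := h Y (by simp)
  rw [Finset.mem_powerset, ← e]
  refine Finset.inter_subset_left.trans (Finset.biUnion_subset.2 fun i _ => ?_)
  exact (by decide : ∀ T ∈ L, T ⊆ Finset.range 4) _ (Fintype.mem_piFinset.1 hf i)

lemma vc (k d : ℕ) (Y : Finset ℕ) (h1 : Y.card = d) (h2 : sh k Y)
    (h3 : ∀ Y ∈ (Finset.range 4).powerset, sh k Y → Y.card ≤ d) :
    top S0 k = {Y | Y.card = d ∧ sh k Y} := by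
  rw [top, IsGreatest.csSup_eq (s := sizes (unions S0 k)) (a := d) ⟨⟨Y, h1, (sh_iff _ _).2 h2⟩, ?_⟩]
  · simp only [sh_iff]
  · rintro _ ⟨Y, rfl, h⟩
    rw [sh_iff] at h
    exact h3 Y (sub h) h

theorem result : ∃ S : Set (Set ℕ), BddAbove (sizes S) ∧ s S 3 < s S 2 := by
  have t2 := vc 2 2 {0, 1} rfl (by decide +kernel) (by decide +kernel)
  have t3 := vc 3 3 {1, 2, 3} rfl (by decide +kernel) (by decide +kernel)
  refine ⟨S0, ⟨4, ?_⟩, lt_of_le_of_lt (b := 1) ?_ ?_⟩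
  · rintro _ ⟨Y, rfl, h⟩
    obtain ⟨_, ⟨T, hT, rfl⟩, e⟩ := h Y subset_rfl
    exact (Finset.card_le_card (by simpa using e)).trans ((by decide : ∀ T ∈ L, T.card ≤ 4) T hT)
  · refine (ncard_image_le (t3 ▸ (Finset.finite_toSet _).subset fun _ h => sub h.2)).trans ?_
    rw [t3]
    refine (ncard_le_ncard (t := {{1, 2, 3}}) (fun Y h => ?_)).trans (by simp)
    exact (by decide +kernel : ∀ Y ∈ (Finset.range 4).powerset, Y.card = 3 → sh 3 Y → Y = {1, 2, 3})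
      Y (sub h.2) h.1 h.2
  · have a : {0, 1} ∈ top S0 2 := t2 ▸ ⟨rfl, by decide +kernel⟩
    have b : {1, 2} ∈ top S0 2 := t2 ▸ ⟨rfl, by decide +kernel⟩
    refine (one_lt_ncard ((t2 ▸ (Finset.finite_toSet _).subset fun _ h => sub h.2 :
      (top S0 2).Finite).image _)).2 ⟨_, ⟨_, a, rfl⟩, _, ⟨_, b, rfl⟩, fun h => ?_⟩
    obtain ⟨-, f, h1, h2⟩ : {1, 2} ∈ {Y' ∈ top S0 2 | Iso S0 {0, 1} Y'} :=
      h.ge ⟨b, id, bijOn_id _, by simp⟩
    obtain ⟨_, ⟨T, hT, rfl⟩, e⟩ : f '' ↑({0, 1} : Finset ℕ) ∈ trace S0 {1, 2} :=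
      h2 ▸ ⟨_, ⟨_, ⟨{0, 1}, by decide, rfl⟩, inter_self _⟩, rfl⟩
    rw [h1.image_eq] at e
    exact (by decide : ∀ T ∈ L, ¬ {1, 2} ⊆ T) T hT (Finset.coe_subset.1 (inter_eq_right.1 e))

end Pool.Agent.Results.MP_522a36_co.NotMonotone
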